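import Pool.Agent.Lib.MP_eee7a8_ag.TB.IfaceB

/-!
# TAGBR Part B: module AXPT
-/

namespace Pool.Agent.Lib.MP_eee7a8_ag.TB.PB.H54

variable {G : Subgroup SLZ} {κ : Type}

theorem hp_inv_iff (Λ : LFam G κ) {k k' : SLZ} (hk : k ∈ Λ.KK)
    (H : HP k k') : HP k'⁻¹ k⁻¹ := by
  intro v hv
  rw [side_inv] at hv ⊢
  have n1 := LFam.side_ne hk v
  have n2 : ¬ 0 < side k v := fun hc => by
    have := H v hc
    omega
  omega

/-- AXPT. -/
theorem axpt (h1 : NEST_S) (h2 : DENSE_S) : AXPT_S := by
  intro G κ Λ h hh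
  have ht : 2 < h.1.trace := LFam.KK_tr hh
  obtain ⟨⟨y, hy, -⟩, ⟨z, hz, -⟩⟩ := h2 h ht 0 1 one_pos
  refine ⟨⟨fun k => HP h⁻¹ k ∨ (HP h k ∧ ¬ HP k h), ?_, ?_⟩, fun k _ => Iff.rfl⟩
  · intro k hk
    have hki := LFam.KK_inv hk
    have hhi := LFam.KK_inv hh
    have hne : ∀ v, side k v ≠ 0 := LFam.side_ne hk
    -- the four relations
    have hN := h1 G κ Λ h hh k hk
    have i1 : HP h⁻¹ k⁻¹ ↔ HP k h := by
      constructor
      · intro H
        have := hp_inv_iff Λ hhi H
        rwa [inv_inv, inv_inv] at this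
      · exact hp_inv_iff Λ hk
    have i3 : HP k⁻¹ h ↔ HP h⁻¹ k := by
      constructor
      · intro H
        have := hp_inv_iff Λ hki H
        rwa [inv_inv] at this
      · intro H
        have := hp_inv_iff Λ hhi H
        rwa [inv_inv] at this
    rw [i1, i3]
    -- incompatibilities
    have j1 : HP h⁻¹ k → HP k h → False := by
      intro a b
      have := a y (by rw [side_inv]; omega)
      have := b y this
      omega
    have j4 : HP h k → HP h k⁻¹ → False := by
      intro b c
      have c1 := c z hz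
      have b1 := b z hz
      rw [side_inv] at c1
      omega
    constructor
    · rintro (A | ⟨B, C⟩) (C' | ⟨D, A'⟩)
      · exact j1 C' A
      · exact A' A
      · exact C C'
      · exact j4 D B
    · intro H
      have nC : ¬ HP h⁻¹ k := fun c => H (Or.inl c)
      have nDA : HP h k → HP k h := fun d => by
        by_contra a
        exact H (Or.inr ⟨d, a⟩)
      rcases hN with D | A | B | C
      · exact Or.inl (nDA D)
      · exact Or.inl A
      · exact Or.inr ⟨B, nC⟩
      · exact absurd C nC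
  · intro k hk k' hk' hkk' H
    rcases H with H | ⟨H, H'⟩
    · exact Or.inl (H.trans hkk')
    · right
      refine ⟨H.trans hkk', fun hc => H' (hkk'.trans hc)⟩

end Pool.Agent.Lib.MP_eee7a8_ag.TB.PB.H54
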