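import Pool.Agent.Lib.MP_eee7a8_ag.TB.IfaceB

/-!
# TAGBR Part B: module DISJH
-/

namespace Pool.Agent.Lib.MP_eee7a8_ag.TB.PB.H54

theorem side_zpow_smul (h : SLZ) (n : ℤ) (v : Cusp) : side h (h ^ n • v) = side h v := by
  have := side_conj (h ^ n) h v
  have e : h ^ n * h * (h ^ n)⁻¹ = h := by group
  rwa [e] at this

theorem side_conj' (g h : SLZ) (v : Cusp) : side (g * h * g⁻¹) v = side h (g⁻¹ • v) := by
  have := side_conj g h (g⁻¹ • v)
  rwa [smul_inv_smul] at this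

theorem pos_zpow (h2 : POS_S) {h : SLZ} (ht : 2 < h.1.trace) (n : ℤ) (v : Cusp) :
    pos h (h ^ n • v) = pos h v + n := by
  have h1 := (h2 h ht).1
  induction n using Int.induction_on with
  | zero => simp
  | succ i ih =>
    have e : h ^ ((i : ℤ) + 1) = h * h ^ (i : ℤ) := by rw [zpow_add_one]; group
    rw [e, mul_smul, h1, ih]
    push_cast
    ring
  | pred i ih =>
    have e : h ^ (-(i : ℤ)) = h * h ^ (-(i : ℤ) - 1) := by group
    rw [e, mul_smul, h1] at ih
    push_cast at ih ⊢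
    linarith

variable {G : Subgroup SLZ} {κ : Type}

theorem disjh_aux (h1 : NCS_S) (h2 : POS_S) (h3 : DENSE_S) (h4 : SEPFIN_S) [Finite κ]
    (Λ : LFam G κ) {h k : SLZ} (hh : h ∈ Λ.KK) (hk : k ∈ Λ.KK) (hP : HP k h) (e : ℤ)
    (he : e ≠ 0) (H : HP k (h ^ e * k * (h ^ e)⁻¹)) {v : Cusp} (hv : 0 < side k v) : HP h k := by
  have ht : 2 < h.1.trace := LFam.KK_tr hh
  obtain ⟨⟨y, hy, -⟩, -⟩ := h3 h ht 0 1 one_pos
  -- no translate of `P_k` contains `y`
  have hy' : ∀ n : ℤ, side k (h ^ n • y) < 0 := by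
    intro n
    have n1 := LFam.side_ne (Λ := Λ) hk (h ^ n • y)
    have n2 : side h (h ^ n • y) < 0 := by rw [side_zpow_smul]; exact hy
    have n3 : ¬ 0 < side k (h ^ n • y) := fun hc => by
      have := hP _ hc
      omega
    omega
  have hinc : ∀ m : ℕ, HP k (h ^ (e * m) * k * (h ^ (e * m))⁻¹) := by
    intro m
    induction m with
    | zero => simpa using HP.refl k
    | succ m ih =>
      have a1 := ih.conj (h ^ e)
      have a2 : h ^ e * (h ^ (e * m) * k * (h ^ (e * m))⁻¹) * (h ^ e)⁻¹ =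
          h ^ (e * (m + 1 : ℕ)) * k * (h ^ (e * (m + 1 : ℕ)))⁻¹ := by
        have : h ^ (e * (m + 1 : ℕ)) = h ^ e * h ^ (e * m) := by
          rw [← zpow_add]; congr 1; push_cast; ring
        rw [this]; group
      rw [a2] at a1
      exact H.trans a1
  have hGz : ∀ n : ℤ, h ^ n ∈ G := fun n => G.zpow_mem (LFam.KK_G hh) n
  have hsep : ∀ m : ℕ, h ^ (e * m) * k * (h ^ (e * m))⁻¹ ∈
      (Pt.ofCusp Λ y).Sep (Pt.ofCusp Λ v) := by
    intro m
    refine ⟨LFam.KK_conj hk (hGz _), ?_, hinc m v hv⟩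
    change ¬ 0 < side _ y
    rw [side_conj', ← zpow_neg]
    have := hy' (-(e * m))
    omega
  have hfin : Finite ((Pt.ofCusp Λ y).Sep (Pt.ofCusp Λ v)) := (h4 G κ inferInstance Λ y v).to_subtype
  obtain ⟨m, n, hmn, hEq⟩ := Finite.exists_ne_map_eq_of_infinite
    (fun m : ℕ => (⟨_, hsep m⟩ : (Pt.ofCusp Λ y).Sep (Pt.ofCusp Λ v)))
  simp only [Subtype.mk.injEq] at hEq
  set D : ℤ := e * m - e * n with hD
  have hD0 : D ≠ 0 := by
    have : D = e * ((m : ℤ) - n) := by rw [hD]; ring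
    rw [this]
    apply mul_ne_zero he
    omega
  have hcomm : Commute (h ^ D) k := by
    have e1 : h ^ D = (h ^ (e * n))⁻¹ * h ^ (e * m) := by
      rw [hD, sub_eq_neg_add, zpow_add, zpow_neg]
    have e2 : h ^ (e * m) * k = h ^ (e * n) * k * (h ^ (e * n))⁻¹ * h ^ (e * m) := by
      rw [← hEq]; group
    change h ^ D * k = k * h ^ D
    rw [e1, mul_assoc, e2]
    group
  intro w hw
  by_contra hc
  have hwk : side k w < 0 := by
    have := LFam.side_ne (Λ := Λ) hk w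
    omega
  obtain ⟨j, hj⟩ := exists_nat_gt |pos h w - pos h v|
  have hvj : ∀ i : ℤ, 0 < side k (h ^ (D * i) • v) := by
    intro i
    have a1 := side_conj (h ^ (D * i)) k v
    have a2 : h ^ (D * i) * k * (h ^ (D * i))⁻¹ = k := by
      have : Commute (h ^ (D * i)) k := by
        rw [zpow_mul]
        exact hcomm.zpow_left i
      rw [this.eq]; group
    rw [a2] at a1
    rw [a1]; exact hv
  have hjpos : (0 : ℝ) ≤ |pos h w - pos h v| := abs_nonneg _
  have hcross : Cross (h ^ (D * j) • v) (h ^ (D * (-j)) • v) w y := by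
    rw [(h2 h ht).2.2.2.1 _ _ _ _ (hP _ (hvj j)) (hP _ (hvj (-j))) hw hy]
    rw [pos_zpow h2 ht, pos_zpow h2 ht]
    have b1 : (1 : ℝ) ≤ (D : ℝ) ^ 2 := by
      have : (1 : ℤ) ≤ D ^ 2 := by
        have := sq_nonneg D
        have h0 : D ^ 2 ≠ 0 := pow_ne_zero 2 hD0
        omega
      exact_mod_cast this
    have b2 : (pos h w - pos h v) ^ 2 < (j : ℝ) ^ 2 := by
      rw [← sq_abs (pos h w - pos h v)]
      exact pow_lt_pow_left₀ hj hjpos (by norm_num)
    have b3 : (j : ℝ) ^ 2 ≤ (D : ℝ) ^ 2 * (j : ℝ) ^ 2 := le_mul_of_one_le_left (sq_nonneg _) b1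
    push_cast
    have b4 : (pos h w - (pos h v + D * j)) * (pos h w - (pos h v + D * -j)) =
        (pos h w - pos h v) ^ 2 - (D : ℝ) ^ 2 * (j : ℝ) ^ 2 := by ring
    rw [b4]
    linarith
  have hdisc : 0 < (sideF k).disc := by
    rw [disc_sideF]
    have : 2 < k.1.trace := LFam.KK_tr hk
    nlinarith
  refine h1 (sideF k) _ _ _ _ hdisc ?_ ?_ ?_ ?_ hcross
  · rw [ev_sideF]; exact le_of_lt (hvj j)
  · rw [ev_sideF]; exact le_of_lt (hvj (-j))
  · rw [ev_sideF]; exact le_of_lt hwk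
  · rw [ev_sideF]
    have := hy' 0
    rw [zpow_zero, one_smul] at this
    exact le_of_lt this

/-- DISJH. -/
theorem disjh (h0 : NEST_S) (h1 : NCS_S) (h2 : POS_S) (h3 : DENSE_S) (h4 : SEPFIN_S) :
    DISJH_S := by
  intro G κ hκ Λ h hh k hk hP hnP v hv
  have ht : 2 < h.1.trace := LFam.KK_tr hh
  by_contra hc
  have hv' : 0 < side k (h • v) := by
    have := LFam.side_ne (Λ := Λ) hk (h • v)
    omega
  obtain ⟨⟨y, hy, -⟩, -⟩ := h3 h ht 0 1 one_pos
  have hky : side k y < 0 := by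
    have n1 := LFam.side_ne (Λ := Λ) hk y
    have n3 : ¬ 0 < side k y := fun hc => by
      have := hP _ hc
      omega
    omega
  have hky' : side k (h⁻¹ • y) < 0 := by
    have n1 := LFam.side_ne (Λ := Λ) hk (h⁻¹ • y)
    have n2 : side h (h⁻¹ • y) = side h y := by
      have := side_zpow_smul h (-1) y
      simpa using this
    have n3 : ¬ 0 < side k (h⁻¹ • y) := fun hc => by
      have := hP _ hc
      omega
    omega
  have hk1 : h * k * h⁻¹ ∈ Λ.KK := LFam.KK_conj hk (LFam.KK_G hh)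
  have hvk1 : 0 < side (h * k * h⁻¹) (h • v) := by rw [side_conj]; exact hv
  rcases h0 G κ Λ k hk _ hk1 with c1 | c1 | c1 | c1
  · apply hnP
    refine disjh_aux h1 h2 h3 h4 Λ hh hk hP 1 one_ne_zero ?_ hv
    simpa using c1
  · apply hnP
    refine disjh_aux h1 h2 h3 h4 Λ hh hk hP (-1) (by norm_num) ?_ hv
    have := c1.conj h⁻¹
    have e1 : h⁻¹ * (h * k * h⁻¹) * h⁻¹⁻¹ = k := by group
    rw [e1] at this
    simpa using this
  · have := c1 _ hv'
    rw [side_inv] at this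
    omega
  · have := c1 y (by rw [side_inv]; omega)
    rw [side_conj'] at this
    omega

end Pool.Agent.Lib.MP_eee7a8_ag.TB.PB.H54
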