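import Pool.Agent.Lib.MP_eee7a8_ag.TB.H54.Disjh

/-!
# TAGBR Part B: module HPOS
-/

namespace Pool.Agent.Lib.MP_eee7a8_ag.TB.PB.H54

variable {G : Subgroup SLZ} {κ : Type}

theorem hpos_aux (h1 : NCS_S) (h2 : POS_S) (h3 : DENSE_S) (h4 : DISJH_S) [Finite κ]
    (Λ : LFam G κ) {h k : SLZ} (hh : h ∈ Λ.KK) (hk : k ∈ Λ.KK) (hP : HP k h) (hnP : ¬ HP h k)
    {v w : Cusp} (hv : 0 < side k v) (hw : 0 < side k w) : pos h w - pos h v ≤ 1 := by
  have ht : 2 < h.1.trace := LFam.KK_tr hh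
  by_contra hc
  push Not at hc
  obtain ⟨⟨y, hy, -⟩, -⟩ := h3 h ht 0 1 one_pos
  have hky : side k y < 0 := by
    have n1 := LFam.side_ne (Λ := Λ) hk y
    have n3 : ¬ 0 < side k y := fun hc => by
      have := hP _ hc
      omega
    omega
  have hhv := h4 G κ inferInstance Λ h hh k hk hP hnP v hv
  have hp : 0 < side h (h • v) := by rw [side_smul_self]; exact hP v hv
  have hcross : Cross v w (h • v) y := by
    rw [(h2 h ht).2.2.2.1 _ _ _ _ (hP _ hv) (hP _ hw) hp hy]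
    rw [(h2 h ht).1]
    have : (pos h v + 1 - pos h v) * (pos h v + 1 - pos h w) = pos h v + 1 - pos h w := by ring
    rw [this]
    linarith
  have hdisc : 0 < (sideF k).disc := by
    rw [disc_sideF]
    have : 2 < k.1.trace := LFam.KK_tr hk
    nlinarith
  refine h1 (sideF k) _ _ _ _ hdisc ?_ ?_ ?_ ?_ hcross
  · rw [ev_sideF]; exact le_of_lt hv
  · rw [ev_sideF]; exact le_of_lt hw
  · rw [ev_sideF]; exact le_of_lt hhv
  · rw [ev_sideF]; exact le_of_lt hky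

/-- HPOS. -/
theorem hpos (h1 : NCS_S) (h2 : POS_S) (h3 : DENSE_S) (h4 : DISJH_S) : HPOS_S := by
  intro G κ hκ Λ h hh k hk hP hnP v w hv hw
  rw [abs_le]
  constructor
  · have := hpos_aux h1 h2 h3 h4 Λ hh hk hP hnP hv hw
    linarith
  · have := hpos_aux h1 h2 h3 h4 Λ hh hk hP hnP hw hv
    linarith

end Pool.Agent.Lib.MP_eee7a8_ag.TB.PB.H54
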