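import Pool.Agent.Lib.MP_eee7a8_ag.TB.IfaceB

/-!
# TAGBR Part B: module IOTA
-/

namespace Pool.Agent.Lib.MP_eee7a8_ag.TB.PB.H54

theorem meets_eq (f : QF) (x y : Cusp) : f.Meets Eq x y ↔ f.ev x * f.ev y < 0 := by
  constructor
  · exact fun h => h.1
  · intro h
    refine ⟨h, ?_⟩
    intro z hz
    constructor
    · rintro rfl
      rw [hz, zero_mul] at h
      exact lt_irrefl _ h
    · rintro rfl
      rw [hz, mul_zero] at h
      exact lt_irrefl _ h

theorem XX_eq (S : Set QF) (x y : Cusp) :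
    XX S Eq x y = ({f | f ∈ S ∧ f.ev x * f.ev y < 0}.ncard : ℤ) := by
  unfold XX
  simp only [meets_eq]

/-- IOTA. -/
theorem iota (h1 : CONST_S) (h2 : FIN_S) (h3 : AXFAM_S) : IOTA_S := by
  intro G κ hκ Λ k hk u u' v v' hu hu' hv hv'
  obtain ⟨hS, hres, hmem⟩ := h3 G κ hκ Λ
  have ht : 2 < k.1.trace := LFam.KK_tr hk
  have fin := fun x y => h2 G Λ.strands hS.toSFam x y
  rw [XX_eq, XX_eq, XX_eq, XX_eq]
  set A := {f | f ∈ Λ.strands ∧ f.ev u * f.ev u' < 0} with hA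
  set B := {f | f ∈ Λ.strands ∧ f.ev v * f.ev v' < 0} with hB
  set C := {f | f ∈ Λ.strands ∧ f.ev u * f.ev v < 0} with hC
  set D := {f | f ∈ Λ.strands ∧ f.ev u' * f.ev v' < 0} with hD
  have fA : A.Finite := fin u u'
  have fB : B.Finite := fin v v'
  have fC : C.Finite := fin u v
  have fD : D.Finite := fin u' v'
  have key : ∀ f ∈ Λ.strands,
      (0 < f.ev u * f.ev u' ∧ f.ev u ≠ 0) ∨ (0 < f.ev v * f.ev v' ∧ f.ev v ≠ 0) := by
    intro f hf
    rcases h1 k f ht (hS.toSFam.pos f hf) (hres k hk f hf) with c | c | c | c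
    · exact Or.inl ⟨mul_pos (c u hu) (c u' hu'), ne_of_gt (c u hu)⟩
    · exact Or.inl ⟨mul_pos_of_neg_of_neg (c u hu) (c u' hu'), ne_of_lt (c u hu)⟩
    · exact Or.inr ⟨mul_pos (c v hv) (c v' hv'), ne_of_gt (c v hv)⟩
    · exact Or.inr ⟨mul_pos_of_neg_of_neg (c v hv) (c v' hv'), ne_of_lt (c v hv)⟩
  have hdisj : Disjoint A B := by
    rw [Set.disjoint_left]
    rintro f ⟨hf, ha⟩ ⟨-, hb⟩
    rcases key f hf with c | c
    · exact absurd ha (not_lt.2 (le_of_lt c.1))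
    · exact absurd hb (not_lt.2 (le_of_lt c.1))
  have aux : ∀ p p' q q' : ℤ, 0 < p * p' → q * q' < 0 → p * q < 0 ∨ p' * q' < 0 := by
    intro p p' q q' hp hq
    by_contra hcon
    push Not at hcon
    obtain ⟨e1, e2⟩ := hcon
    have e3 : 0 ≤ (p * q) * (p' * q') := mul_nonneg e1 e2
    have e4 : (p * q) * (p' * q') = (p * p') * (q * q') := by ring
    rw [e4] at e3
    exact absurd (mul_neg_of_pos_of_neg hp hq) (not_lt.2 e3)
  have hsub : A ∪ B ⊆ C ∪ D := by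
    rintro f (⟨hf, ha⟩ | ⟨hf, hb⟩)
    · rcases key f hf with c | c
      · exact absurd ha (not_lt.2 (le_of_lt c.1))
      · rcases aux _ _ _ _ c.1 ha with e | e
        · exact Or.inl ⟨hf, by rw [mul_comm]; exact e⟩
        · exact Or.inr ⟨hf, by rw [mul_comm]; exact e⟩
    · rcases key f hf with c | c
      · rcases aux _ _ _ _ c.1 hb with e | e
        · exact Or.inl ⟨hf, e⟩
        · exact Or.inr ⟨hf, e⟩
      · exact absurd hb (not_lt.2 (le_of_lt c.1))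
  have hne : (C ∩ D).Nonempty := by
    rcases hmem k hk with e | e
    · refine ⟨sideF k, ⟨e, ?_⟩, ⟨e, ?_⟩⟩
      · rw [ev_sideF, ev_sideF]; exact mul_neg_of_neg_of_pos hu hv
      · rw [ev_sideF, ev_sideF]; exact mul_neg_of_neg_of_pos hu' hv'
    · refine ⟨(sideF k).neg, ⟨e, ?_⟩, ⟨e, ?_⟩⟩
      · rw [ev_neg, ev_neg, ev_sideF, ev_sideF, neg_mul_neg]; exact mul_neg_of_neg_of_pos hu hv
      · rw [ev_neg, ev_neg, ev_sideF, ev_sideF, neg_mul_neg]; exact mul_neg_of_neg_of_pos hu' hv'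
  have c1 : (A ∪ B).ncard = A.ncard + B.ncard := Set.ncard_union_eq hdisj fA fB
  have c2 : (C ∪ D).ncard + (C ∩ D).ncard = C.ncard + D.ncard :=
    Set.ncard_union_add_ncard_inter C D fC fD
  have c3 : (A ∪ B).ncard ≤ (C ∪ D).ncard := Set.ncard_le_ncard hsub (fC.union fD)
  have c4 : 0 < (C ∩ D).ncard := (Set.ncard_pos (fC.inter_of_left D)).2 hne
  have : A.ncard + B.ncard < C.ncard + D.ncard := by omega
  exact_mod_cast this

end Pool.Agent.Lib.MP_eee7a8_ag.TB.PB.H54
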