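import Pool.Agent.Lib.MP_eee7a8_ag.TB.IfaceB

/-!
# TAGBR Part B: module NEST
-/

open Matrix

namespace Pool.Agent.Lib.MP_eee7a8_ag.TB.PB.H54

theorem axesCross_conj {h k : SLZ} (g : SLZ) (H : AxesCross (g * h * g⁻¹) (g * k * g⁻¹)) :
    AxesCross h k := by
  have key : ∀ (x : SLZ) (a : Cusp), side (g * x * g⁻¹) a = side x (g⁻¹ • a) := by
    intro x a
    have := side_conj g x (g⁻¹ • a)
    rwa [smul_inv_smul] at this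
  obtain ⟨⟨a, ha, ha'⟩, ⟨b, hb, hb'⟩, ⟨c, hc, hc'⟩, ⟨d, hd, hd'⟩⟩ := H
  rw [key] at ha ha' hb hb' hc hc' hd hd'
  exact ⟨⟨_, ha, ha'⟩, ⟨_, hb, hb'⟩, ⟨_, hc, hc'⟩, ⟨_, hd, hd'⟩⟩

theorem axesCross_symm {h k : SLZ} (H : AxesCross h k) : AxesCross k h := by
  obtain ⟨⟨a, ha, ha'⟩, ⟨b, hb, hb'⟩, ⟨c, hc, hc'⟩, ⟨d, hd, hd'⟩⟩ := H
  exact ⟨⟨a, ha', ha⟩, ⟨c, hc', hc⟩, ⟨b, hb', hb⟩, ⟨d, hd', hd⟩⟩

theorem axesCross_inv_right {h k : SLZ} (H : AxesCross h k⁻¹) : AxesCross h k := by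
  obtain ⟨⟨a, ha, ha'⟩, ⟨b, hb, hb'⟩, ⟨c, hc, hc'⟩, ⟨d, hd, hd'⟩⟩ := H
  rw [side_inv] at ha' hb' hc' hd'
  exact ⟨⟨b, hb, by omega⟩, ⟨a, ha, by omega⟩, ⟨d, hd, by omega⟩, ⟨c, hc, by omega⟩⟩

theorem axesCross_inv_left {h k : SLZ} (H : AxesCross h⁻¹ k) : AxesCross h k :=
  axesCross_symm (axesCross_inv_right (axesCross_symm H))

variable {G : Subgroup SLZ} {κ : Type}

theorem not_axesCross_base (Λ : LFam G κ) (i j : κ) {g g' : SLZ} (hg : g ∈ G) (hg' : g' ∈ G) :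
    ¬ AxesCross (g * Λ.h i * g⁻¹) (g' * Λ.h j * g'⁻¹) := by
  intro H
  have e1 : g' * Λ.h j * g'⁻¹ = g * ((g⁻¹ * g') * Λ.h j * (g⁻¹ * g')⁻¹) * g⁻¹ := by group
  rw [e1] at H
  have H2 := axesCross_conj g H
  have hm : g⁻¹ * g' ∈ G := G.mul_mem (G.inv_mem hg) hg'
  by_cases hij : i = j
  · subst hij
    exact (Λ.loop i).simple _ hm H2
  · exact (Λ.disj i j hij _ hm).1 H2

theorem not_axesCross (Λ : LFam G κ) {k k' : SLZ} (hk : k ∈ Λ.KK) (hk' : k' ∈ Λ.KK) :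
    ¬ AxesCross k k' := by
  obtain ⟨i, g, hg, h1⟩ := hk
  obtain ⟨j, g', hg', h2⟩ := hk'
  have e : ∀ (g x : SLZ), g * x⁻¹ * g⁻¹ = (g * x * g⁻¹)⁻¹ := fun g x => by group
  intro H
  rw [e] at h1 h2
  rcases h1 with rfl | rfl <;> rcases h2 with rfl | rfl
  · exact not_axesCross_base Λ i j hg hg' H
  · exact not_axesCross_base Λ i j hg hg' (axesCross_inv_right H)
  · exact not_axesCross_base Λ i j hg hg' (axesCross_inv_left H)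
  · exact not_axesCross_base Λ i j hg hg' (axesCross_inv_right (axesCross_inv_left H))

/-- NEST. -/
theorem nest : NEST_S := by
  intro G κ Λ k hk k' hk'
  have H := not_axesCross Λ hk hk'
  have n1 := fun v => LFam.side_ne (Λ := Λ) hk v
  have n2 := fun v => LFam.side_ne (Λ := Λ) hk' v
  by_contra hcon
  push Not at hcon
  obtain ⟨c1, c2, c3, c4⟩ := hcon
  unfold HP at c1 c2 c3 c4
  push Not at c1 c2 c3 c4
  obtain ⟨a, ha, ha'⟩ := c1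
  obtain ⟨b, hb, hb'⟩ := c2
  obtain ⟨c, hc, hc'⟩ := c3
  obtain ⟨d, hd, hd'⟩ := c4
  rw [side_inv] at hc' hd
  apply H
  refine ⟨⟨c, hc, ?_⟩, ⟨a, ha, ?_⟩, ⟨b, ?_, hb⟩, ⟨d, ?_, ?_⟩⟩
  · have := n2 c; omega
  · have := n2 a; omega
  · have := n1 b; omega
  · omega
  · have := n2 d; omega

end Pool.Agent.Lib.MP_eee7a8_ag.TB.PB.H54
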